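import Mathlib

open MeasureTheory Filter Topology Pointwise Set
open scoped ENNReal

/-!
# A finite union of translates of a symmetric convex body with too large surface area

`K` is the square bipyramid `|x₀| + max(|x₁|, |x₂|) ≤ 1` in `ℝ^3`, the points are the origin and
the six vertices of `K`.  Every facet of `K` meets the unit vector in direction of the first axis
at its apex, so the `K`-surface area counts the crossings of the lines parallel to the first
axis.  The four equatorial translates project onto four squares which tile the projection of `2K`,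
so that every line over the square `[-2,2]²` gives at least two crossings, as for `2K`; the lines
over a small rectangle leave the union and enter it again, which gives two additional crossings.
-/

set_option autoImplicit false

namespace Pool.Agent.Results.MP_a80f1a_gt.BipyramidUnion

/-- Euclidean space `ℝ^d`. -/
abbrev E (d : ℕ) := EuclideanSpace ℝ (Fin d)

/-- The difference quotient `(λ(A ⊕ δK) - λ(A)) / δ`. -/
noncomputable def quot {d : ℕ} (K A : Set (E d)) (δ : ℝ) : ℝ :=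
  ((volume (A + δ • K)).toReal - (volume A).toReal) / δ

/-- The lower `K`-surface area of `A`. -/
noncomputable def lowerSurf {d : ℕ} (K A : Set (E d)) : EReal :=
  liminf (fun δ : ℝ => ((quot K A δ : ℝ) : EReal)) (𝓝[>] (0 : ℝ))

/-- The upper `K`-surface area of `A`. -/
noncomputable def upperSurf {d : ℕ} (K A : Set (E d)) : EReal :=
  limsup (fun δ : ℝ => ((quot K A δ : ℝ) : EReal)) (𝓝[>] (0 : ℝ))

/-- `K` is a bounded convex set that is centrally symmetric about `c`. -/
structure SymmConvex {d : ℕ} (K : Set (E d)) (c : E d) : Prop where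
  bounded : Bornology.IsBounded K
  convex : Convex ℝ K
  symm : ∀ x ∈ K, (2 : ℝ) • c - x ∈ K

/-- `K(x₀; r) = x₀ + r (K - c)`, where `c` is the centre of symmetry of `K`. -/
def body {d : ℕ} (K : Set (E d)) (c x₀ : E d) (r : ℝ) : Set (E d) :=
  (fun x => x₀ + r • (x - c)) '' K

/-- The square bipyramid `|x₀| + max(|x₁|, |x₂|) ≤ 1` (an affine image of the regular
octahedron). -/
def Kb : Set (E 3) := {x | |x 0| + |x 1| ≤ 1 ∧ |x 0| + |x 2| ≤ 1}

/-- The six vertices of the bipyramid. -/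
noncomputable def Fb : Finset (E 3) :=
  {!₂[1, 0, 0], !₂[-1, 0, 0], !₂[0, 1, 1], !₂[0, 1, -1], !₂[0, -1, 1], !₂[0, -1, -1]}

/-- Splitting off the first coordinate. -/
noncomputable def eqv : E 3 ≃ᵐ ℝ × (Fin 2 → ℝ) :=
  (MeasurableEquiv.toLp 2 (Fin 3 → ℝ)).symm.trans
    (MeasurableEquiv.piFinSuccAbove (fun _ : Fin 3 => ℝ) 0)

theorem eqv_mp : MeasurePreserving eqv volume volume :=
  (EuclideanSpace.volume_preserving_symm_measurableEquiv_toLp (Fin 3)).trans
    (volume_preserving_piFinSuccAbove (fun _ : Fin 3 => ℝ) 0)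

/-- the point with coordinates `(t, w 0, w 1)`. -/
noncomputable def mk (t : ℝ) (w : Fin 2 → ℝ) : E 3 := !₂[t, w 0, w 1]

@[simp] theorem mk0 (t : ℝ) (w : Fin 2 → ℝ) : mk t w 0 = t := rfl
@[simp] theorem mk1 (t : ℝ) (w : Fin 2 → ℝ) : mk t w 1 = w 0 := rfl
@[simp] theorem mk2 (t : ℝ) (w : Fin 2 → ℝ) : mk t w 2 = w 1 := rfl

theorem eqv_mk (t : ℝ) (w : Fin 2 → ℝ) : eqv (mk t w) = (t, w) := by
  ext i
  · rfl
  · fin_cases i <;> rfl

theorem eqv_symm (t : ℝ) (w : Fin 2 → ℝ) : eqv.symm (t, w) = mk t w := by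
  rw [← eqv_mk, MeasurableEquiv.symm_apply_apply]

/-- The slice of `B` above `w`, a set of first coordinates. -/
def sl (B : Set (E 3)) (w : Fin 2 → ℝ) : Set ℝ := {t | mk t w ∈ B}

theorem vol_slices {B : Set (E 3)} (hB : MeasurableSet B) :
    volume B = ∫⁻ w : Fin 2 → ℝ, volume (sl B w) := by
  have h1 : volume (eqv.symm ⁻¹' B) = volume B :=
    (eqv_mp.symm).measure_preimage_equiv B
  rw [← h1, Measure.volume_eq_prod, Measure.prod_apply_symm (eqv.symm.measurable hB)]
  refine lintegral_congr fun w => ?_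
  congr 1
  ext t
  simp only [mem_preimage, eqv_symm, sl, Set.mem_ofPred_eq]

theorem meas_slices {B : Set (E 3)} (hB : MeasurableSet B) :
    Measurable fun w : Fin 2 → ℝ => volume (sl B w) := by
  have := measurable_measure_prodMk_right (μ := (volume : Measure ℝ)) (eqv.symm.measurable hB)
  convert this using 3 with w
  ext t
  simp only [mem_preimage, eqv_symm, sl, Set.mem_ofPred_eq]

theorem vol1 {S T : Set ℝ} (hS : IsCompact S) (hne : S.Nonempty) {δ : ℝ} (hδ : 0 < δ)
    (h : ∀ s ∈ S, ∀ u, |u| ≤ δ → s + u ∈ T) :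
    volume S + ENNReal.ofReal (2 * δ) ≤ volume T := by
  have ha := hS.sInf_mem hne
  have hb := hS.sSup_mem hne
  set a := sInf S
  set b := sSup S
  have hal : ∀ s ∈ S, a ≤ s := fun s hs => csInf_le hS.bddBelow hs
  have hbl : ∀ s ∈ S, s ≤ b := fun s hs => le_csSup hS.bddAbove hs
  have hab : a ≤ b := hal b hb
  have hsub : (Ico (a - δ) a ∪ Ioc b (b + δ)) ∪ S ⊆ T := by
    rintro x ((hx | hx) | hx)
    · have := h a ha (x - a) (by rw [abs_le]; constructor <;> linarith [hx.1, hx.2])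
      simpa using this
    · have := h b hb (x - b) (by rw [abs_le]; constructor <;> linarith [hx.1, hx.2])
      simpa using this
    · simpa using h x hx 0 (by simpa using hδ.le)
  have hd1 : Disjoint (Ico (a - δ) a ∪ Ioc b (b + δ)) S := by
    rw [Set.disjoint_left]
    rintro x (hx | hx) hxS
    · linarith [hx.2, hal x hxS]
    · linarith [hx.1, hbl x hxS]
  have hd2 : Disjoint (Ico (a - δ) a) (Ioc b (b + δ)) := by
    rw [Set.disjoint_left]
    rintro x hx hx'
    linarith [hx.2, hx'.1]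
  calc volume S + ENNReal.ofReal (2 * δ)
      = volume ((Ico (a - δ) a ∪ Ioc b (b + δ)) ∪ S) := by
        rw [measure_union hd1 hS.measurableSet, measure_union hd2 measurableSet_Ioc,
          Real.volume_Ico, Real.volume_Ioc, add_comm (volume S)]
        congr 1
        rw [← ENNReal.ofReal_add (by linarith) (by linarith)]
        congr 1; ring
    _ ≤ volume T := measure_mono hsub

theorem vol2 {S T : Set ℝ} (hS : IsCompact S) {δ a b : ℝ} (hδ : 0 < δ) (hab : a + 2 * δ < b)
    (hgap : ∀ s ∈ S, s ≤ a ∨ b ≤ s) (h1 : ∃ s ∈ S, s ≤ a) (h2 : ∃ s ∈ S, b ≤ s)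
    (h : ∀ s ∈ S, ∀ u, |u| ≤ δ → s + u ∈ T) :
    volume S + ENNReal.ofReal (2 * δ) + ENNReal.ofReal (2 * δ) ≤ volume T := by
  set m := a + δ
  have e1 := vol1 (S := S ∩ Iic a) (T := T ∩ Iic m) (hS.inter_right isClosed_Iic)
    (by obtain ⟨s, hs, hs'⟩ := h1; exact ⟨s, hs, hs'⟩) hδ (by
      rintro s ⟨hs, hs'⟩ u hu
      refine ⟨h s hs u hu, ?_⟩
      simp only [mem_Iic] at hs' ⊢
      have := (abs_le.1 hu).2
      linarith)
  have e2 := vol1 (S := S ∩ Ici b) (T := T ∩ Ioi m) (hS.inter_right isClosed_Ici)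
    (by obtain ⟨s, hs, hs'⟩ := h2; exact ⟨s, hs, hs'⟩) hδ (by
      rintro s ⟨hs, hs'⟩ u hu
      refine ⟨h s hs u hu, ?_⟩
      simp only [mem_Ici, mem_Ioi] at hs' ⊢
      have := (abs_le.1 hu).1
      linarith)
  have e3 : volume S ≤ volume (S ∩ Iic a) + volume (S ∩ Ici b) := by
    refine (measure_mono ?_).trans (measure_union_le _ _)
    intro s hs
    rcases hgap s hs with h' | h'
    · exact Or.inl ⟨hs, h'⟩
    · exact Or.inr ⟨hs, h'⟩
  have e4 : volume (T ∩ Iic m) + volume (T ∩ Ioi m) = volume T := by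
    have := measure_inter_add_sdiff (μ := (volume : Measure ℝ)) T (measurableSet_Iic (a := m))
    rw [← this]
    congr 2
    ext x; simp
  calc volume S + ENNReal.ofReal (2 * δ) + ENNReal.ofReal (2 * δ)
      ≤ volume (S ∩ Iic a) + volume (S ∩ Ici b) + ENNReal.ofReal (2 * δ)
        + ENNReal.ofReal (2 * δ) := by gcongr
    _ = (volume (S ∩ Iic a) + ENNReal.ofReal (2 * δ))
        + (volume (S ∩ Ici b) + ENNReal.ofReal (2 * δ)) := by ring
    _ ≤ volume (T ∩ Iic m) + volume (T ∩ Ioi m) := add_le_add e1 e2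
    _ = volume T := e4


theorem mem_smul_Kb {c : ℝ} (hc : 0 < c) (x : E 3) :
    x ∈ c • Kb ↔ |x 0| + |x 1| ≤ c ∧ |x 0| + |x 2| ≤ c := by
  rw [mem_smul_set_iff_inv_smul_mem₀ hc.ne']
  simp only [Kb, Set.mem_ofPred_eq, PiLp.smul_apply, smul_eq_mul, abs_mul, abs_of_pos (inv_pos.2 hc)]
  rw [← mul_add, ← mul_add, inv_mul_le_iff₀ hc, inv_mul_le_iff₀ hc, mul_one]

theorem Kb_convex : Convex ℝ Kb := by
  intro x hx y hy a b ha hb hab
  simp only [Kb, Set.mem_ofPred_eq, PiLp.add_apply, PiLp.smul_apply, smul_eq_mul] at *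
  have h : ∀ i, |a * x i + b * y i| ≤ a * |x i| + b * |y i| := fun i =>
    (abs_add_le _ _).trans (by rw [abs_mul, abs_mul, abs_of_nonneg ha, abs_of_nonneg hb])
  constructor
  · have := h 0; have := h 1
    nlinarith [mul_le_mul_of_nonneg_left hx.1 ha, mul_le_mul_of_nonneg_left hy.1 hb]
  · have := h 0; have := h 2
    nlinarith [mul_le_mul_of_nonneg_left hx.2 ha, mul_le_mul_of_nonneg_left hy.2 hb]

theorem Kb_closed : IsClosed Kb := by
  have h0 : Continuous fun x : E 3 => x 0 := PiLp.continuous_apply 2 _ 0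
  have h1 : Continuous fun x : E 3 => x 1 := PiLp.continuous_apply 2 _ 1
  have h2 : Continuous fun x : E 3 => x 2 := PiLp.continuous_apply 2 _ 2
  exact (isClosed_le (h0.abs.add h1.abs) continuous_const).inter
    (isClosed_le (h0.abs.add h2.abs) continuous_const)

theorem Kb_bounded : Bornology.IsBounded Kb := by
  rw [isBounded_iff_forall_norm_le]
  refine ⟨3, fun x hx => ?_⟩
  have a0 := abs_nonneg (x 0); have a1 := abs_nonneg (x 1); have a2 := abs_nonneg (x 2)
  obtain ⟨h1, h2⟩ := hx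
  rw [EuclideanSpace.norm_eq, Real.sqrt_le_left (by norm_num), Fin.sum_univ_three]
  simp only [Real.norm_eq_abs]
  nlinarith

theorem Kb_compact : IsCompact Kb := Metric.isCompact_of_isClosed_isBounded Kb_closed Kb_bounded

/-- the centres together with the origin. -/
noncomputable def Ab : Set (E 3) := insert 0 (Fb : Set (E 3))

theorem Ab_finite : Ab.Finite := (Finset.finite_toSet _).insert _

theorem U_compact : IsCompact (Ab + Kb) := Ab_finite.isCompact.add Kb_compact

theorem mem_add_Kb {A : Set (E 3)} {c : ℝ} (hc : 0 < c) (x : E 3) :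
    x ∈ A + c • Kb ↔ ∃ a ∈ A, |x 0 - a 0| + |x 1 - a 1| ≤ c ∧ |x 0 - a 0| + |x 2 - a 2| ≤ c := by
  constructor
  · rintro ⟨a, ha, k, hk, rfl⟩
    rw [mem_smul_Kb hc] at hk
    exact ⟨a, ha, by simpa using hk⟩
  · rintro ⟨a, ha, h⟩
    refine ⟨a, ha, x - a, ?_, by simp⟩
    rw [mem_smul_Kb hc]
    simpa using h

theorem continuous_mk (w : Fin 2 → ℝ) : Continuous fun t => mk t w := by
  unfold mk
  fun_prop

theorem sl_closed {B : Set (E 3)} (hB : IsClosed B) (w : Fin 2 → ℝ) : IsClosed (sl B w) :=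
  hB.preimage (continuous_mk w)

theorem sl_compact {B : Set (E 3)} (hB : IsCompact B) (w : Fin 2 → ℝ) : IsCompact (sl B w) := by
  have h0 : Continuous fun x : E 3 => x 0 := PiLp.continuous_apply 2 _ 0
  refine (hB.image h0).of_isClosed_subset (sl_closed hB.isClosed w) ?_
  intro t ht
  exact ⟨mk t w, ht, rfl⟩

/-- adding `δ K` moves slices. -/
theorem sl_add {B : Set (E 3)} {δ : ℝ} (hδ : 0 < δ) (w : Fin 2 → ℝ) :
    ∀ s ∈ sl B w, ∀ u, |u| ≤ δ → s + u ∈ sl (B + δ • Kb) w := by
  intro s hs u hu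
  refine (mem_add_Kb hδ _).2 ⟨mk s w, hs, ?_⟩
  simpa using hu

/-- the big square of the plane, of area `16`. -/
def Dsq : Set (Fin 2 → ℝ) := Icc (fun _ => -2) (fun _ => 2)

/-- a small rectangle. -/
noncomputable def Qsq : Set (Fin 2 → ℝ) := Icc ![3/4, 1/4] ![7/8, 3/8]

theorem vol_Dsq : volume Dsq = 16 := by
  unfold Dsq
  rw [Real.volume_Icc_pi, Fin.prod_univ_two, ← ENNReal.ofReal_mul (by norm_num)]
  norm_num

theorem vol_Qsq : volume Qsq = ENNReal.ofReal (1/64) := by
  unfold Qsq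
  rw [Real.volume_Icc_pi, Fin.prod_univ_two, ← ENNReal.ofReal_mul (by norm_num)]
  norm_num

theorem U_nonempty {w : Fin 2 → ℝ} (hw : w ∈ Dsq) : (0 : ℝ) ∈ sl (Ab + Kb) w := by
  obtain ⟨hl, hu⟩ := hw
  have l0 := hl 0; have l1 := hl 1; have u0 := hu 0; have u1 := hu 1
  simp only at l0 l1 u0 u1
  have key := mem_add_Kb (A := Ab) one_pos (mk 0 w)
  rw [one_smul] at key
  refine key.2 ?_
  rcases le_total 0 (w 0) with h0 | h0 <;> rcases le_total 0 (w 1) with h1 | h1
  · refine ⟨!₂[0, 1, 1], by simp [Ab, Fb], ?_⟩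
    simp only [mk0, mk1, mk2]
    constructor <;> simp <;> rw [abs_le] <;> constructor <;> linarith
  · refine ⟨!₂[0, 1, -1], by simp [Ab, Fb], ?_⟩
    simp only [mk0, mk1, mk2]
    constructor <;> simp <;> rw [abs_le] <;> constructor <;> linarith
  · refine ⟨!₂[0, -1, 1], by simp [Ab, Fb], ?_⟩
    simp only [mk0, mk1, mk2]
    constructor <;> simp <;> rw [abs_le] <;> constructor <;> linarith
  · refine ⟨!₂[0, -1, -1], by simp [Ab, Fb], ?_⟩
    simp only [mk0, mk1, mk2]
    constructor <;> simp <;> rw [abs_le] <;> constructor <;> linarith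

theorem U_gap {w : Fin 2 → ℝ} (hw : w ∈ Qsq) :
    (0 : ℝ) ∈ sl (Ab + Kb) w ∧ (1 : ℝ) ∈ sl (Ab + Kb) w ∧
    ∀ s ∈ sl (Ab + Kb) w, s ≤ 3/8 ∨ 3/4 ≤ s := by
  obtain ⟨hl, hu⟩ := hw
  have l0 := hl 0; have l1 := hl 1; have u0 := hu 0; have u1 := hu 1
  simp at l0 l1 u0 u1
  have key := fun t => mem_add_Kb (A := Ab) one_pos (mk t w)
  simp only [one_smul] at key
  refine ⟨(key 0).2 ⟨0, by simp [Ab], ?_⟩, (key 1).2 ⟨!₂[1,0,0], by simp [Ab, Fb], ?_⟩, ?_⟩
  · constructor <;> simp <;> rw [abs_le] <;> constructor <;> linarith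
  · constructor <;> simp <;> rw [abs_le] <;> constructor <;> linarith
  · intro s hs
    by_contra hcon
    push Not at hcon
    obtain ⟨c1, c2⟩ := hcon
    obtain ⟨a, ha, h1, h2⟩ := (key s).1 hs
    simp only [mk0, mk1, mk2] at h1 h2
    have f1 := le_abs_self (s - a 0); have f2 := neg_abs_le (s - a 0)
    have f3 := le_abs_self (w 0 - a 1); have f4 := neg_abs_le (w 0 - a 1)
    have f5 := le_abs_self (w 1 - a 2); have f6 := neg_abs_le (w 1 - a 2)
    simp only [Ab, Fb, Finset.coe_insert, Finset.coe_singleton, mem_insert_iff,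
      mem_singleton_iff] at ha
    rcases ha with rfl | rfl | rfl | rfl | rfl | rfl | rfl
    all_goals
      simp at h1 h2 f1 f2 f3 f4 f5 f6
      linarith


theorem V_compact {δ : ℝ} : IsCompact ((Ab + Kb) + δ • Kb) := U_compact.add (Kb_compact.smul δ)

theorem slice_lower {δ : ℝ} (hδ : 0 < δ) (hδ' : δ < 3/16) (w : Fin 2 → ℝ) :
    volume (sl (Ab + Kb) w) + (Dsq.indicator (fun _ => ENNReal.ofReal (2 * δ)) w
      + Qsq.indicator (fun _ => ENNReal.ofReal (2 * δ)) w)
      ≤ volume (sl ((Ab + Kb) + δ • Kb) w) := by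
  by_cases hQ : w ∈ Qsq
  · have hD : w ∈ Dsq := by
      obtain ⟨hl, hu⟩ := hQ
      have l0 := hl 0; have l1 := hl 1; have u0 := hu 0; have u1 := hu 1
      simp at l0 l1 u0 u1
      constructor
      · intro i; fin_cases i <;> simp <;> linarith
      · intro i; fin_cases i <;> simp <;> linarith
    rw [indicator_of_mem hD, indicator_of_mem hQ, ← add_assoc]
    obtain ⟨g0, g1, g⟩ := U_gap hQ
    exact vol2 (sl_compact U_compact w) (a := 3/8) (b := 3/4) hδ (by linarith) g
      ⟨0, g0, by norm_num⟩ ⟨1, g1, by norm_num⟩ (sl_add hδ w)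
  · rw [indicator_of_notMem hQ, add_zero]
    by_cases hD : w ∈ Dsq
    · rw [indicator_of_mem hD]
      exact vol1 (sl_compact U_compact w) ⟨0, U_nonempty hD⟩ hδ (sl_add hδ w)
    · rw [indicator_of_notMem hD, add_zero]
      refine measure_mono fun s hs => ?_
      simpa using sl_add hδ w s hs 0 (by simpa using hδ.le)

theorem vol_lower {δ : ℝ} (hδ : 0 < δ) (hδ' : δ < 3/16) :
    volume (Ab + Kb) + (ENNReal.ofReal (2 * δ) * 16 + ENNReal.ofReal (2 * δ) * ENNReal.ofReal (1/64))
      ≤ volume ((Ab + Kb) + δ • Kb) := by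
  rw [vol_slices U_compact.measurableSet, vol_slices V_compact.measurableSet]
  have hDm : MeasurableSet Dsq := measurableSet_Icc
  have hQm : MeasurableSet Qsq := measurableSet_Icc
  have e1 : ∫⁻ w, Dsq.indicator (fun _ => ENNReal.ofReal (2 * δ)) w =
      ENNReal.ofReal (2 * δ) * 16 := by
    rw [lintegral_indicator_const hDm, vol_Dsq]
  have e2 : ∫⁻ w, Qsq.indicator (fun _ => ENNReal.ofReal (2 * δ)) w =
      ENNReal.ofReal (2 * δ) * ENNReal.ofReal (1/64) := by
    rw [lintegral_indicator_const hQm, vol_Qsq]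
  rw [← e1, ← e2, ← lintegral_add_left (measurable_const.indicator hDm),
    ← lintegral_add_left (meas_slices U_compact.measurableSet)]
  exact lintegral_mono fun w => slice_lower hδ hδ' w

theorem quot_lower {δ : ℝ} (hδ : 0 < δ) (hδ' : δ < 3/16) :
    32 + 1/32 ≤ quot Kb (Ab + Kb) δ := by
  unfold quot
  rw [le_div_iff₀ hδ]
  have h := vol_lower hδ hδ'
  have f1 : volume (Ab + Kb) ≠ ⊤ := U_compact.measure_lt_top.ne
  have f2 : volume ((Ab + Kb) + δ • Kb) ≠ ⊤ := V_compact.measure_lt_top.ne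
  have e : ENNReal.ofReal (2 * δ) * 16 + ENNReal.ofReal (2 * δ) * ENNReal.ofReal (1/64)
      = ENNReal.ofReal ((32 + 1/32) * δ) := by
    rw [show (16 : ℝ≥0∞) = ENNReal.ofReal 16 by simp, ← ENNReal.ofReal_mul (by linarith),
      ← ENNReal.ofReal_mul (by linarith), ← ENNReal.ofReal_add (by positivity) (by positivity)]
    congr 1; ring
  rw [e] at h
  have h2 := ENNReal.toReal_mono f2 h
  rw [ENNReal.toReal_add f1 ENNReal.ofReal_ne_top, ENNReal.toReal_ofReal (by positivity)] at h2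
  linarith

/-- the double body -/
theorem two_add {δ : ℝ} (hδ : 0 < δ) : (2 : ℝ) • Kb + δ • Kb = (2 + δ) • Kb :=
  (Kb_convex.add_smul (by norm_num) hδ.le).symm

theorem slice_upper {δ : ℝ} (hδ : 0 < δ) (w : Fin 2 → ℝ) :
    volume (sl ((2 + δ) • Kb) w) ≤ volume (sl ((2 : ℝ) • Kb) w) +
      (Icc (fun _ => -(2 + δ)) (fun _ => 2 + δ) : Set (Fin 2 → ℝ)).indicator
        (fun _ => ENNReal.ofReal (2 * δ)) w := by
  have m1 : ∀ t, t ∈ sl ((2 + δ) • Kb) w ↔ |t| + |w 0| ≤ 2 + δ ∧ |t| + |w 1| ≤ 2 + δ := by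
    intro t
    have := mem_smul_Kb (c := 2 + δ) (by linarith) (mk t w)
    simpa [sl] using this
  have m2 : ∀ t, t ∈ sl ((2 : ℝ) • Kb) w ↔ |t| + |w 0| ≤ 2 ∧ |t| + |w 1| ≤ 2 := by
    intro t
    have := mem_smul_Kb (c := 2) (by linarith) (mk t w)
    simpa [sl] using this
  by_cases hw : w ∈ (Icc (fun _ => -(2 + δ)) (fun _ => 2 + δ) : Set (Fin 2 → ℝ))
  · rw [indicator_of_mem hw]
    set m := max (min (2 - |w 0|) (2 - |w 1|)) 0 with hm
    have hm0 : 0 ≤ m := le_max_right _ _
    have hsub : sl ((2 + δ) • Kb) w ⊆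
        sl ((2 : ℝ) • Kb) w ∪ (Icc m (m + δ) ∪ Icc (-m - δ) (-m)) := by
      intro t ht
      rw [m1] at ht
      have hle : |t| ≤ m + δ := by
        have : min (2 - |w 0|) (2 - |w 1|) ≤ m := le_max_left _ _
        rcases min_choice (2 - |w 0|) (2 - |w 1|) with h | h <;> rw [h] at this <;> linarith [ht.1, ht.2]
      by_cases htm : |t| ≤ min (2 - |w 0|) (2 - |w 1|)
      · left
        rw [m2]
        have := le_min_iff.1 htm
        constructor <;> linarith [this.1, this.2]
      · right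
        have hmt : m ≤ |t| := max_le (not_le.1 htm).le (abs_nonneg _)
        rcases le_total 0 t with h | h
        · left
          rw [abs_of_nonneg h] at hmt hle
          exact ⟨hmt, hle⟩
        · right
          rw [abs_of_nonpos h] at hmt hle
          exact ⟨by linarith, by linarith⟩
    refine (measure_mono hsub).trans ((measure_union_le _ _).trans ?_)
    gcongr
    refine (measure_union_le _ _).trans ?_
    rw [Real.volume_Icc, Real.volume_Icc, ← ENNReal.ofReal_add (by linarith) (by linarith)]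
    apply le_of_eq
    congr 1; ring
  · have : sl ((2 + δ) • Kb) w = ∅ := by
      rw [eq_empty_iff_forall_notMem]
      intro t ht
      apply hw
      rw [m1] at ht
      have a0 := abs_nonneg t
      have b0 := abs_le.1 (show |w 0| ≤ 2 + δ by linarith [ht.1])
      have b1 := abs_le.1 (show |w 1| ≤ 2 + δ by linarith [ht.2])
      constructor
      · intro i; fin_cases i
        · exact b0.1
        · exact b1.1
      · intro i; fin_cases i
        · exact b0.2
        · exact b1.2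
    rw [this, measure_empty]
    exact zero_le

theorem vol_upper {δ : ℝ} (hδ : 0 < δ) :
    volume ((2 + δ) • Kb) ≤ volume ((2 : ℝ) • Kb) +
      ENNReal.ofReal (2 * δ) * ENNReal.ofReal ((4 + 2 * δ) ^ 2) := by
  have c1 : IsCompact ((2 + δ) • Kb) := Kb_compact.smul _
  have c2 : IsCompact ((2 : ℝ) • Kb) := Kb_compact.smul _
  rw [vol_slices c1.measurableSet, vol_slices c2.measurableSet]
  have hm : MeasurableSet (Icc (fun _ => -(2 + δ)) (fun _ => 2 + δ) : Set (Fin 2 → ℝ)) :=
    measurableSet_Icc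
  have e1 : ∫⁻ w, (Icc (fun _ => -(2 + δ)) (fun _ => 2 + δ) : Set (Fin 2 → ℝ)).indicator
      (fun _ => ENNReal.ofReal (2 * δ)) w =
      ENNReal.ofReal (2 * δ) * ENNReal.ofReal ((4 + 2 * δ) ^ 2) := by
    rw [lintegral_indicator_const hm, Real.volume_Icc_pi, Fin.prod_univ_two,
      ← ENNReal.ofReal_mul (by linarith)]
    congr 2; ring
  rw [← e1, ← lintegral_add_left (meas_slices c2.measurableSet)]
  exact lintegral_mono fun w => slice_upper hδ w

theorem quot_upper {δ : ℝ} (hδ : 0 < δ) : quot Kb ((2 : ℝ) • Kb) δ ≤ 2 * (4 + 2 * δ) ^ 2 := by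
  unfold quot
  rw [div_le_iff₀ hδ, two_add hδ]
  have h := vol_upper hδ
  have f1 : volume ((2 : ℝ) • Kb) ≠ ⊤ := (Kb_compact.smul _).measure_lt_top.ne
  rw [← ENNReal.ofReal_mul (by linarith)] at h
  have h2 := ENNReal.toReal_mono (ENNReal.add_ne_top.2 ⟨f1, ENNReal.ofReal_ne_top⟩) h
  rw [ENNReal.toReal_add f1 ENNReal.ofReal_ne_top, ENNReal.toReal_ofReal (by positivity)] at h2
  linarith

theorem main_lt : upperSurf Kb ((2 : ℝ) • Kb) < lowerSurf Kb (Ab + Kb) := by
  have h1 : upperSurf Kb ((2 : ℝ) • Kb) ≤ ((32 + 1/64 : ℝ) : EReal) := by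
    refine limsup_le_of_le (by isBoundedDefault) ?_
    have : Ioo (0 : ℝ) (1/10000) ∈ 𝓝[>] (0 : ℝ) := Ioo_mem_nhdsGT (by norm_num)
    filter_upwards [this] with δ hδ
    rw [EReal.coe_le_coe_iff]
    refine (quot_upper hδ.1).trans ?_
    have := hδ.1; have := hδ.2
    nlinarith
  have h2 : ((32 + 1/32 : ℝ) : EReal) ≤ lowerSurf Kb (Ab + Kb) := by
    refine le_liminf_of_le (by isBoundedDefault) ?_
    have : Ioo (0 : ℝ) (3/16) ∈ 𝓝[>] (0 : ℝ) := Ioo_mem_nhdsGT (by norm_num)
    filter_upwards [this] with δ hδ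
    rw [EReal.coe_le_coe_iff]
    exact quot_lower hδ.1 hδ.2
  refine lt_of_le_of_lt h1 (lt_of_lt_of_le ?_ h2)
  rw [EReal.coe_lt_coe_iff]
  norm_num


theorem body_Kb {r : ℝ} : body Kb 0 0 r = r • Kb := by
  unfold body
  rw [← image_smul]
  simp

theorem Fb_sub : ∀ x ∈ Fb, x ∈ Kb := by
  intro x hx
  simp only [Fb, Finset.mem_insert, Finset.mem_singleton] at hx
  rcases hx with rfl | rfl | rfl | rfl | rfl | rfl <;> simp [Kb]

theorem Kb_symm : ∀ x ∈ Kb, (2 : ℝ) • (0 : E 3) - x ∈ Kb := by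
  intro x hx
  simpa [Kb] using hx

theorem Kb_interior : (interior Kb).Nonempty := by
  have h0 : Continuous fun x : E 3 => x 0 := PiLp.continuous_apply 2 _ 0
  have h1 : Continuous fun x : E 3 => x 1 := PiLp.continuous_apply 2 _ 1
  have h2 : Continuous fun x : E 3 => x 2 := PiLp.continuous_apply 2 _ 2
  have ho : IsOpen {x : E 3 | |x 0| + |x 1| < 1 ∧ |x 0| + |x 2| < 1} :=
    (isOpen_lt (h0.abs.add h1.abs) continuous_const).inter
      (isOpen_lt (h0.abs.add h2.abs) continuous_const)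
  exact ⟨0, mem_interior.2 ⟨_, fun x hx => ⟨hx.1.le, hx.2.le⟩, ho, by simp⟩⟩

/-- **The inequality `λ_K(∂(A ⊕ rK)) ≤ λ_K(∂K(x₀; 2r))` is false.**  There are a compact convex
set `K` in `ℝ^3` with nonempty interior, centrally symmetric about `c`, a radius `r > 0`, a point
`x₀` and six points `x₁, …, x₆ ∈ K(x₀; r)` such that, for `A = {x₀, x₁, …, x₆}`, the lower
`K`-surface area of `A ⊕ rK` is larger than the upper `K`-surface area of `K(x₀; 2r)`. -/
theorem result : ∃ (K : Set (E 3)) (c : E 3), SymmConvex K c ∧ IsCompact K ∧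
    (interior K).Nonempty ∧ ∃ (r : ℝ) (x₀ : E 3) (F : Finset (E 3)), 0 < r ∧ F.card ≤ 6 ∧
    (∀ x ∈ F, x ∈ body K c x₀ r) ∧
    upperSurf K (body K c x₀ (2 * r)) < lowerSurf K (insert x₀ (F : Set (E 3)) + r • K) := by
  refine ⟨Kb, 0, ⟨Kb_bounded, Kb_convex, Kb_symm⟩, Kb_compact, Kb_interior, 1, 0, Fb, one_pos,
    Finset.card_le_six, ?_, ?_⟩
  · intro x hx
    rw [body_Kb, one_smul]
    exact Fb_sub x hx
  · rw [body_Kb, one_smul, mul_one]
    exact main_lt

end Pool.Agent.Results.MP_a80f1a_gt.BipyramidUnion
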